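import Pool.Agent.TH812.GV2.Vojta

/-!
Vojta's height inequality with constant one over function fields, for pairs cut out by very general
forms in an arbitrary projective variety.
-/

set_option autoImplicit false

namespace Pool.Agent.Results.MP_4dacf8_ag.GenericPairs

open FF MvPolynomial Pool.Agent.W603.LV Pool.Agent.W603.PV Pool.Agent.W603.CZ
  Pool.Agent.TH145.MG

/-- Let `F` be a function field of one variable over the algebraically closed field `k` of
characteristic zero. Let `F0` be a subfield of `F` which is finitely generated over a subfield `k0`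
of `k`, and let `V` be any projective variety over `F0` of dimension at most `m` (it may be
singular, reducible or non-reduced, and it need not be defined over `k`). Let `H a`, `a ∈ α`, be
finitely many forms over `F`, of degrees `d a`, which are generic relative to `F0`: the ratios of
the coefficients of each form to one nonzero coefficient of it are algebraically independent over
`F0`, for all forms together. Then there is a constant `C` such that, for all finite extensions `L`
of `F` and all points `x` of `V` over `L`,
`(Σ d a + z - 2 m - 1) h(x) ≤ N1(x) + 2 g(L) - 2 + C [L : F]`,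
where `h(x)` is the height of `x` relative to `L`, `z` is the number of forms `H a` that vanish at
`x`, `N1(x)` is the number of places of `L` at which `x` meets one of the other hypersurfaces
`H a = 0`, each place being counted once, and `2 g(L) - 2` is the canonical degree of `L`. For a
subset `E` of `α`, the points on the complete intersection pair `X = V ∩ {H a = 0, a ∈ E}`,
`D = X ∩ {H a = 0 for some a ∉ E}` that do not lie on `D` are those with vanishing set exactly
`E`. -/
theorem result {k0 k F0 F : Type} [Field k0] [Field k] [Field F0] [Field F] [IsAlgClosed k]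
    [CharZero k] [Algebra k0 k] [Algebra k F] [Algebra k0 F] [IsScalarTower k0 k F]
    [Algebra k0 F0] [Algebra F0 F] [IsScalarTower k0 F0 F] [IsFF k F]
    (hfg : ∃ S : Finset F0, IntermediateField.adjoin k0 (S : Set F0) = ⊤) {n m : ℕ}
    (V : Set (MvPolynomial (Fin (n + 1)) F0)) (hV : DimLE F0 V m) {α : Type} [Fintype α]
    (H : α → MvPolynomial (Fin (n + 1)) F) (d : α → ℕ) (hH : ∀ a, (H a).IsHomogeneous (d a))
    (I0 : α → Fin (n + 1) →₀ ℕ) (hI0 : ∀ a, (H a).coeff (I0 a) ≠ 0)
    (hgen : AlgebraicIndependent F0 fun p : {p : α × (Fin (n + 1) →₀ ℕ) //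
      p.2.degree = d p.1 ∧ p.2 ≠ I0 p.1} => (H p.1.1).coeff p.1.2 / (H p.1.1).coeff (I0 p.1.1)) :
    ∃ C : ℕ, ∀ (L : Type) [Field L] [Algebra k L] [Algebra F L]
      [IsScalarTower k F L] [FiniteDimensional F L] (x : Fin (n + 1) → L), x ≠ 0 →
      (∀ f ∈ V, aeval x (map (algebraMap F0 F) f) = 0) →
      ((∑ a, (d a : ℤ)) + {a | aeval x (H a) = 0}.ncard - 2 * m - 1) * pht k x ≤
        (meetsAny (k := k) (fun a : {a // aeval x (H a) ≠ 0} => H a) (fun a => d a) x).ncard +
          canDeg k L + C * Module.finrank F L := by
  obtain ⟨C, hC⟩ := Pool.Agent.TH812.GV2.vojta_sharp (k0 := k0) (k := k) hfg V hV H d hH I0 hI0 hgen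
  refine ⟨C, fun L _ _ _ _ _ x hx hxV => ?_⟩
  have h1 := hC L x hx hxV
  rw [finsum_eq_sum_of_fintype] at h1
  exact h1

end Pool.Agent.Results.MP_4dacf8_ag.GenericPairs
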