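import Mathlib
import Pool.Agent.TH710.NU.Exc

/-!
Vojta's height inequality over function fields, for pairs given by nested sums of few high powers of
linear forms, with the exceptional set.
-/

set_option autoImplicit false

namespace Pool.Agent.Results.MP_4dacf8_ag.NestedPairs

open FF MvPolynomial Pool.Agent.W603.LV Pool.Agent.W603.PV Pool.Agent.W603.CZ
  Pool.Agent.TH710.NU

/-- Let `F` be a function field of one variable over the algebraically closed field `k` of
characteristic zero. Let `X` be the closed subset `Fs i = 0` of projective `n`-space over `F`, and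
`D` the union of the divisors `Q j = 0`, where the `Fs i` and the finitely many `Q j` are nested
sums of few high powers of linear forms over `F` (`Tower`, `TowerLog`). There are a closed subset
`Z` of `X` (given by the homogeneous ideal `J`) and constants `B`, `C` such that:
through the generic point of each component of `Z` which is not contained in `D` there is a line in
`X` which meets `D` in at most two points; each component of `X` which is not contained in `D` and
not covered by lines in it which meet `D` in at most two points is not contained in `Z`; and for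
every finite extension `L` of `F` and every point `f` of `X` over `L` outside `Z` and `D` the height
of `f` (relative to `L`) is at most `B (2 g(L) - 2 + N1) + C [L : F]`, where `N1` is the number of
places of `L` at which `f` meets `D`. -/
theorem result {k F : Type} [Field k] [IsAlgClosed k] [CharZero k] [Field F] [Algebra k F]
    [IsFF k F] {n : ℕ} {ι κ : Type} [Finite κ] (Fs : ι → MvPolynomial (Fin (n + 1)) F)
    (hF : ∀ i, Tower (Fs i)) (Q : κ → MvPolynomial (Fin (n + 1)) F) (q : κ → ℕ)
    (hQ : ∀ j, TowerLog (Q j) (q j)) :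
    ∃ J : Ideal (MvPolynomial (Fin (n + 1)) F),
      (∀ H ∈ J, ∀ d, homogeneousComponent d H ∈ J) ∧ (∀ i, Fs i ∈ J) ∧
      (∀ p ∈ J.minimalPrimes, (∃ j, X j ∉ p) → (∀ j, Q j ∉ p) → HasLineIn p Fs Q q) ∧
      (∀ p ∈ (Ideal.span (Set.range Fs)).minimalPrimes, (∃ j, X j ∉ p) → (∀ j, Q j ∉ p) →
        HasPuncturedLine p Q q ∨ ∃ G ∈ J, G ∉ p) ∧
      ∃ (B C : ℕ), ∀ (L : Type) [Field L] [Algebra k L] [Algebra F L]
        [IsScalarTower k F L] [FiniteDimensional F L] (f : Fin (n + 1) → L),
        (∃ j, f j ≠ 0) → (∀ i, aeval f (Fs i) = 0) → (∀ j, aeval f (Q j) ≠ 0) →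
        (∃ G ∈ J, aeval f G ≠ 0) →
          pht k f ≤ B * (canDeg k L + (meetsAny (k := k) Q q f).ncard) +
            C * Module.finrank F L := by
  obtain ⟨J, h1, h2, h3, B, C, h4⟩ := vojta_exc (k := k) Fs hF Q q hQ
  refine ⟨J, h1, fun i => h2 (Ideal.subset_span ⟨i, rfl⟩), h3, fun p hp hx hQp => ?_, B, C,
    fun L _ _ _ _ _ f hf hfF hfQ hfJ => h4 L f hfF hfQ hfJ hf⟩
  have hcF : CharZero F := charZero_of_injective_algebraMap (algebraMap k F).injective
  by_cases hJ : ∃ G ∈ J, G ∉ p
  · exact Or.inr hJ
  · push Not at hJ
    have hpJ : p ∈ J.minimalPrimes :=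
      ⟨⟨hp.1.1, hJ⟩, fun p' hp' hle => hp.2 ⟨hp'.1, h2.trans hp'.2⟩ hle⟩
    exact Or.inl (line_of_in (fun i => (hF i).hom) hp (h3 p hpJ hx hQp))

end Pool.Agent.Results.MP_4dacf8_ag.NestedPairs
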