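import Pool.Agent.W603.PV.TruncMain

/-!
# MP_4dacf8_ag: Vojta's height inequality over function fields for pairs with a rigid system

`F` is a function field of one variable over an algebraically closed field `k` of characteristic
zero, `X` a projective variety over `F`, given by its homogeneous prime ideal `p`, and `D` the
divisor on `X` given by a form `Q` of degree `q`.  A system `E : EqSys p Q q s` consists of finitely
many relations `∑ ψ i a * φ i a ^ N i = 0` on `X` between forms with coefficients in `F`, with `s i`
terms of the same degree and `N i ≥ (s i - 1) ^ 2`, where the zeros of `ψ i a` on `X` are contained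
in `D` (generalised unit equations on `X \ D`; there may be further, arbitrary equations for `X`).
It is rigid if the ratios of the coordinates are algebraic over the field generated over `F` by the
ratios of the terms in the same block, whenever the terms of each relation are partitioned into
blocks with sum zero on `X`.  Vojta's inequality, with the truncated counting function and the
discriminant, holds for all pairs `(X, D)` with a rigid system.

Function fields of one variable and places are in `FF`, the notions `EqSys`, `EqSys.Rigid`, `pht`,
`IsHomog`, `trunc`, `Over`, `disc`, `ram` in `Pool/Agent/W603/PV`.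
-/

set_option autoImplicit false

namespace Pool.Agent.Results.MP_4dacf8_ag.RigidPairs

open FF MvPolynomial Pool.Agent.W603.LV Pool.Agent.W603.PV

/-- Let `F` be a function field of one variable over the algebraically closed field `k` of
characteristic zero, `X` a projective variety over `F` with homogeneous prime ideal `p` and `D` the
divisor on `X` given by the form `Q` of degree `q`, not vanishing on `X`.  Suppose that there is a
rigid system of generalised unit equations for `(X, D)`.  Then there are a proper closed subset
`G = 0` of `X`, containing `D`, and a `B` such that for every finite set `S` of places of `F` there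
is a `C` with `h(f) ≤ B (d_{L/F} + N_S(f)) + C [L : F]` for every finite extension `L` of `F` and
every point `f` of `X` over `L` not in `G = 0`; here `h` is the height relative to `L`, `d_{L/F}` is
the degree of the ramification divisor of `L` over `F` and `N_S(f)` is the number of places of `L`,
not over `S`, at which `f` meets `D`, each counted once.  For the points over `F` this says
`h(f) ≤ B N_S(f) + C`. -/
theorem result {k F : Type} [Field k] [IsAlgClosed k] [CharZero k] [Field F] [Algebra k F]
    [IsFF k F] {n : ℕ} (p : Ideal (MvPolynomial (Fin (n + 1)) F)) [p.IsPrime] (hp : IsHomog p)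
    (hx : ∃ j, X j ∉ p) (Q : MvPolynomial (Fin (n + 1)) F) (q : ℕ) (hQ : Q.IsHomogeneous q)
    (hQp : Q ∉ p) {I : Type} [Finite I] {s : I → ℕ} (E : EqSys p Q q s) (hE : E.Rigid) :
    ∃ (d : ℕ) (G : MvPolynomial (Fin (n + 1)) F), G.IsHomogeneous d ∧ G ∉ p ∧ Q ∣ G ∧
      ∃ B : ℕ, ∀ S : Finset (Place k F), ∃ C : ℕ,
      (∀ (L : Type) [Field L] [Algebra k L] [Algebra F L] [IsScalarTower k F L]
      [FiniteDimensional F L] (f : Fin (n + 1) → L),
      (∀ H ∈ p, aeval f H = 0) → aeval f G ≠ 0 →
        pht k f ≤ B * (disc k F L + (trunc S Q q f).ncard) + C * Module.finrank F L) ∧
      ∀ f : Fin (n + 1) → F, (∀ H ∈ p, aeval f H = 0) → aeval f G ≠ 0 →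
        pht k f ≤ B * (trunc S Q q f).ncard + C :=
  to_trunc' hx (vojta.{0, 0, 0, 0} (k := k) hp hQ hQp E hE hx)

end Pool.Agent.Results.MP_4dacf8_ag.RigidPairs
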