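import Pool.Agent.TH875.Vg.FinV

set_option autoImplicit false

/-!
# Very general divisors on arbitrary projective varieties over function fields

`k` is an algebraically closed field of characteristic zero and `F` a function field of one variable
over `k`, the function field of a curve `B`. `X ⊆ ℙ^n` is an arbitrary projective variety over `F`,
given by a homogeneous ideal `I`, and the divisors are `D i = X ∩ {h i + g i = 0}`, where the `h i`
are arbitrary forms over `F` and the `g i` are very general forms over `k`.
-/

namespace Pool.Agent.Results.MP_4dacf8_ag.VeryGeneralDivisors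

open FF MvPolynomial

section

variable (k F : Type) {L : Type} [Field k] [Field F] [Field L] [Algebra k L] [Algebra F L]

/-- The least order at the place `P` of the coordinates of a point of a projective space. -/
noncomputable def minOrd {ι : Type} (P : Place k L) (x : ι → L) : ℤ :=
  ⨅ j : {j // x j ≠ 0}, P.ord (x j)

/-- The height of the point with homogeneous coordinates `x`: minus the sum over the places of `L`
of the least order of the coordinates, that is, the degree of the pull-back of `O(1)` to the curve
with function field `L`. -/
noncomputable def height {ι : Type} (x : ι → L) : ℤ := - ∑ᶠ P : Place k L, minOrd k P x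

/-- The height of the linear subspace of `L ^ (n + 1)` spanned by the linearly independent vectors
`u 0, …, u r`: the height of the point whose homogeneous coordinates are the Plücker coordinates of
the subspace, the minors `det (u i (σ j))`. It does not depend on the basis, and it is `≥ 0`. -/
noncomputable def spaceHeight {n r : ℕ} (u : Fin (r + 1) → Fin (n + 1) → L) : ℤ :=
  height k fun σ : Fin (r + 1) → Fin (n + 1) => (Matrix.of fun i j => u i (σ j)).det

/-- The ramification index over `F` of the place `P` of `L`. -/
noncomputable def ramification (P : Place k L) : ℕ :=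
  sInf {m : ℕ | 0 < m ∧ ∃ x : F, P.ord (algebraMap F L x) = m}

variable (L) in
/-- The degree of the ramification divisor of the extension `L` of `F`: the sum over the places of
`L` of `e - 1`, where `e` is the ramification index. It is `2 g(L) - 2 - [L : F] (2 g(F) - 2)`. -/
noncomputable def discriminant : ℤ := ∑ᶠ P : Place k L, ((ramification k F P : ℤ) - 1)

/-- The set of the places `P` of `L` at which the point `x` meets one of the hypersurfaces
`f i = 0` (of degree `d i`) that do not contain `x`. -/
def meets {n q : ℕ} (d : Fin q → ℕ) (f : Fin q → MvPolynomial (Fin (n + 1)) F)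
    (x : Fin (n + 1) → L) : Set (Place k L) :=
  {P | ∃ i, aeval x (f i) ≠ 0 ∧ d i * minOrd k P x < P.ord (aeval x (f i))}

end

open Classical in
/-- Let `I` be a homogeneous ideal of the polynomial ring in `n + 1` variables over `F` such that
the transcendence degree of the quotient ring is at most `m + 1`: the subscheme `X` of `ℙ^n` defined
by `I` has dimension at most `m`. Let `h i`, `i < q`, be arbitrary forms over `F` of degrees
`d i ≥ 1`. There are a countable subfield `k₁` of `k` and a constant `C` with the following
property. Let `g i` be forms of degrees `d i` over `k` all of whose coefficients together are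
algebraically independent over `k₁`, and `f i = h i + g i`. For every finite extension `L` of `F`
and every point `x` of `X(L)`, let `Z` be the set of the `i` with `f i (x) = 0`, `N` the number of
the places of `L` at which `x` meets one of the hypersurfaces `f i = 0`, `i ∉ Z`, and `R` the degree
of the ramification divisor of `L` over `F`. Then
`(∑ i, d i - 2 m - 1 + #Z) h(x) ≤ N + R + C [L : F]`, and, more precisely,
`(∑ i, d i - 2 r - 1 + #Z) h(x) + h(U) ≤ N + R + C [L : F]`
for some `r ≤ m` and some space `U` of dimension `r + 1` that contains `x` and is contained in the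
tangent space at `x` of the cone over `X`.

If `X` is smooth of dimension `m` at `x` and `r = m`, then `U` is the whole tangent space and
`h(U)` is the height of `x` with respect to `K_X + (m + 1) H`, `H` a hyperplane section. -/
theorem result (k F : Type) [Field k] [IsAlgClosed k] [CharZero k] [Field F] [Algebra k F]
    [IsFF k F] (n q m : ℕ) (I : Ideal (MvPolynomial (Fin (n + 1)) F))
    (hI : ∀ f ∈ I, ∀ N, homogeneousComponent N f ∈ I)
    (hX : Algebra.trdeg F (MvPolynomial (Fin (n + 1)) F ⧸ I) ≤ m + 1)
    (d : Fin q → ℕ) (hd : ∀ i, 1 ≤ d i)
    (h : Fin q → MvPolynomial (Fin (n + 1)) F) (hh : ∀ i, (h i).IsHomogeneous (d i)) :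
    ∃ k₁ : Subfield k, Countable k₁ ∧ ∃ C : ℕ,
      ∀ g : Fin q → MvPolynomial (Fin (n + 1)) k, (∀ i, (g i).IsHomogeneous (d i)) →
      AlgebraicIndependent k₁ (fun p : (i : Fin q) × {α : Fin (n + 1) →₀ ℕ // α.degree = d i} =>
        (g p.1).coeff p.2.1) →
      ∀ (L : Type) [Field L] [Algebra k L] [Algebra F L] [IsScalarTower k F L]
          [FiniteDimensional F L] (x : Fin (n + 1) → L), x ≠ 0 → (∀ f ∈ I, aeval x f = 0) →
        (meets k F d (fun i => h i + map (algebraMap k F) (g i)) x).Finite ∧
        (∑ i, (d i : ℤ) - 2 * m - 1 +
            (Finset.univ.filter fun i => aeval x (h i + map (algebraMap k F) (g i)) = 0).card) *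
          height k x ≤ (meets k F d (fun i => h i + map (algebraMap k F) (g i)) x).ncard +
            discriminant k F L + C * Module.finrank F L ∧
        ∃ r : ℕ, r ≤ m ∧ ∃ u : Fin (r + 1) → Fin (n + 1) → L, LinearIndependent L u ∧
          x ∈ Submodule.span L (Set.range u) ∧
          (∀ i, ∀ f ∈ I, ∑ j, aeval x (pderiv j f) * u i j = 0) ∧
          (∑ i, (d i : ℤ) - 2 * r - 1 +
              (Finset.univ.filter fun i => aeval x (h i + map (algebraMap k F) (g i)) = 0).card) *
            height k x + spaceHeight k u ≤
              (meets k F d (fun i => h i + map (algebraMap k F) (g i)) x).ncard +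
                discriminant k F L + C * Module.finrank F L := by
  obtain ⟨k₁, hk₁, h1⟩ := Pool.Agent.TH875.Vg.final_V (k := k) (d := d) hd hh hI hX
  obtain ⟨C, hC⟩ := h1 ∅
  refine ⟨k₁, hk₁, C, fun g hg hai L _ _ _ _ _ x hx hxI => ?_⟩
  have hx' : ∃ j, x j ≠ 0 := by
    by_contra hcon
    push Not at hcon
    exact hx (funext hcon)
  have e : Pool.Agent.TH875.Vg.tr (k := k) ∅ d
      (fun i => h i + map (algebraMap k F) (g i)) x =
      meets k F d (fun i => h i + map (algebraMap k F) (g i)) x := by
    ext P
    constructor
    · rintro ⟨-, h2⟩
      exact h2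
    · intro h2
      exact ⟨fun v hv => absurd hv (Finset.notMem_empty v), h2⟩
  have h3 := hC g hg (hai.comp
    (fun p : (i : Fin q) × Pool.Agent.TH875.Vg.Expo n (d i) =>
      (⟨p.1, ⟨p.2.1, (Pool.Agent.TH875.Vg.mem_expo p.2.1).1 p.2.2⟩⟩ :
        (i : Fin q) × {α : Fin (n + 1) →₀ ℕ // α.degree = d i})) (by
      rintro ⟨i, α⟩ ⟨j, β⟩ hab
      simp only [Sigma.mk.injEq] at hab
      obtain ⟨rfl, hab⟩ := hab
      rw [heq_eq_eq, Subtype.mk.injEq] at hab
      rw [Subtype.ext hab])) L x hx' hxI
  rw [e] at h3
  exact h3

end Pool.Agent.Results.MP_4dacf8_ag.VeryGeneralDivisors
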